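import Pool.Agent.TH563.Z.Kx
import Pool.Agent.W681.AX.EMS

/-! Z-EMS: expansion of `S_d` near any base point in `[1/4, 3/8]`. -/

set_option autoImplicit false

namespace Pool.Agent.TH931.Z764

open Finset Filter Topology Metric MeasureTheory
open Pool.Agent.W711.HT Pool.Agent.W719.AX Pool.Agent.W681.AX
open scoped Real

theorem ball_subZ {y₀ : ℝ} (h1 : 1 / 4 ≤ y₀) (h2 : y₀ ≤ 3 / 8) :
    closedBall (y₀ : ℂ) (1 / 16) ⊆ U := by
  intro w hw
  rw [mem_closedBall, dist_eq_norm] at hw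
  have h3 := (Complex.abs_re_le_norm (w - y₀)).trans hw
  have h4 : (w - y₀).re = w.re - y₀ := by
    rw [Complex.sub_re, Complex.ofReal_re]
  rw [h4, abs_le] at h3
  constructor
  · linarith [h3.1]
  · linarith [h3.2]

theorem bound_vvZ {y₀ : ℝ} (h1 : 1 / 4 ≤ y₀) (h2 : y₀ ≤ 3 / 8) (b : ℕ → ℝ) (k : ℕ) :
    ∃ B : ℝ, ∀ δ ∈ ball (y₀ : ℂ) (1 / 16), ‖vv b k δ‖ ≤ B := by
  obtain ⟨B, hB⟩ := (isCompact_closedBall (y₀ : ℂ) (1 / 16)).exists_bound_of_continuousOn
    ((diffOn_vv b k).continuousOn.mono (ball_subZ h1 h2))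
  exact ⟨B, fun δ hδ => hB δ (ball_subset_closedBall hδ)⟩

/-- the case of positive order -/
theorem main_posZ : ∃ b : ℕ → ℝ, ∀ K : ℕ, 1 ≤ K → ∃ C : ℝ, 0 ≤ C ∧ ∀ N : ℕ, 64 ≤ N → ∀ d : ℕ,
    3 / 16 < (d : ℝ) / N → (d : ℝ) / N < 7 / 16 →
    ∃ e : ℂ, ‖e‖ ≤ C / (N : ℝ) ^ K ∧
      (Sd N d : ℂ) ^ 2 = N * Complex.exp (2 * N * ssF ((d : ℂ) / N) +
        ∑ k ∈ range K, vv b k ((d : ℂ) / N) / (N : ℂ) ^ k + e) := by
  obtain ⟨b, hb⟩ := Pool.Agent.W571.FE.em 1 zero_le_one le_rfl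
  obtain ⟨B, hB0, hB⟩ := bound_FF
  refine ⟨b, fun K hK => ?_⟩
  obtain ⟨C, hC0, hC⟩ := hb K
  refine ⟨C * B * 16 ^ (K + 1), by positivity, ?_⟩
  intro N hN d hd1 hd2
  have hNp : (0 : ℝ) < N := by
    have : 0 < N := by omega
    exact_mod_cast this
  have hN64 : (64 : ℝ) ≤ N := by exact_mod_cast hN
  have hd3 : 1 ≤ d := by
    by_contra hh
    have : d = 0 := by omega
    subst this
    norm_num at hd1
  have hd4 : 2 * d < N := by
    rw [div_lt_iff₀ hNp] at hd2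
    have : (2 : ℝ) * d < N := by nlinarith
    exact_mod_cast this
  set n := N - 2 * d with hn
  have hnN : (n : ℝ) * (1 / N) = 1 - 2 * ((d : ℝ) / N) := by
    rw [hn, Nat.cast_sub hd4.le]
    push_cast
    field_simp
  have hz : (d : ℂ) / N = (((d : ℝ) / N : ℝ) : ℂ) := by push_cast; rfl
  have h := hC FF ((d : ℂ) / N) n (1 / N) (1 / 16) B (by positivity)
    (by
      rw [mul_one_div, div_le_div_iff₀ hNp (by norm_num)]
      linarith)
    (by
      intro x hx0 hx1 w hw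
      rw [hnN] at hx1
      have hwr := lt_of_le_of_lt (Complex.abs_re_le_norm _) hw
      have hwi := lt_of_le_of_lt (Complex.abs_im_le_norm _) hw
      have e1 : (w - ((d : ℂ) / N + x)).re = w.re - ((d : ℝ) / N + x) := by
        rw [hz, Complex.sub_re, Complex.add_re, Complex.ofReal_re, Complex.ofReal_re]
      have e2 : (w - ((d : ℂ) / N + x)).im = w.im := by
        rw [hz, Complex.sub_im, Complex.add_im, Complex.ofReal_im, Complex.ofReal_im]
        ring
      rw [e1, abs_lt] at hwr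
      rw [e2, abs_lt] at hwi
      have hwK : w ∈ Kc := by
        rw [Kc, Complex.mem_reProdIm, Set.mem_Icc, Set.mem_Icc]
        refine ⟨⟨?_, ?_⟩, ⟨?_, ?_⟩⟩
        · linarith [hwr.1, hwr.2]
        · linarith [hwr.1, hwr.2]
        · linarith [hwi.1]
        · linarith [hwi.2]
      exact ⟨diff_FF (Kc_sub hwK), hB w hwK⟩)
  set S := ∑ j ∈ range n, FF ((d : ℂ) / N + ((1 / N : ℝ) : ℂ) * (j + (1 : ℝ))) with hS
  have hend : (d : ℂ) / N + n * ((1 / N : ℝ) : ℂ) = 1 - (d : ℂ) / N := by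
    have : ((n : ℝ) * (1 / N) : ℝ) = ((1 - 2 * ((d : ℝ) / N) : ℝ)) := hnN
    have h2 : ((n : ℂ) * ((1 / N : ℝ) : ℂ)) = ((1 - 2 * ((d : ℝ) / N) : ℝ) : ℂ) := by
      rw [← this]
      push_cast
      ring
    rw [h2]
    push_cast
    ring
  have hint : (∫ x in (0:ℝ)..((n : ℝ) * (1 / N)), FF ((d : ℂ) / N + x)) =
      -(2 * ssF ((d : ℂ) / N)) := by
    rw [hz]
    exact int_FF _ _ (by positivity) (by linarith) hnN
  rw [hend, hint] at h
  set Sk := ∑ k ∈ range K, (b k : ℂ) * ((1 / N : ℝ) : ℂ) ^ k *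
        (iteratedDeriv k FF (1 - (d : ℂ) / N) - iteratedDeriv k FF ((d : ℂ) / N)) with hSk
  refine ⟨-(S - ((1 / N : ℝ) : ℂ)⁻¹ * -(2 * ssF ((d : ℂ) / N)) - Sk), ?_, ?_⟩
  · rw [norm_neg]
    refine h.trans ?_
    have hnN' : (n : ℝ) ≤ N := by
      have : n ≤ N := by omega
      exact_mod_cast this
    have e1 : (1 / (N : ℝ) / (1 / 16)) = 16 / N := by field_simp
    rw [e1, div_pow]
    calc C * (n * B * (16 ^ (K + 1) / (N : ℝ) ^ (K + 1)))
        ≤ C * (N * B * (16 ^ (K + 1) / (N : ℝ) ^ (K + 1))) := by gcongr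
      _ = C * B * 16 ^ (K + 1) / (N : ℝ) ^ K := by
        rw [pow_succ (N : ℝ) K]
        field_simp
  · rw [Sd_sq hd3 hd4]
    congr 2
    have e1 : ∑ k ∈ range K, vv b k ((d : ℂ) / N) / (N : ℂ) ^ k =
        FF ((d : ℂ) / N) - Sk := by
      obtain ⟨K', rfl⟩ : ∃ K', K = K' + 1 := ⟨K - 1, by omega⟩
      have e2 : ∀ k ∈ range (K' + 1), vv b k ((d : ℂ) / N) / (N : ℂ) ^ k =
          (if k = 0 then FF ((d : ℂ) / N) else 0) - (b k : ℂ) * ((1 / N : ℝ) : ℂ) ^ k *
          (iteratedDeriv k FF (1 - (d : ℂ) / N) - iteratedDeriv k FF ((d : ℂ) / N)) := by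
        intro k _
        unfold vv
        by_cases hk : k = 0
        · subst hk
          simp
        · rw [if_neg hk]
          push_cast
          rw [div_pow, one_pow]
          ring
      rw [sum_congr rfl e2, sum_sub_distrib, hSk]
      congr 1
      rw [Finset.sum_ite_eq' (range (K' + 1)) 0]
      simp
    rw [e1]
    have e3 : ((1 / N : ℝ) : ℂ)⁻¹ = (N : ℂ) := by
      push_cast
      field_simp
    rw [e3]
    ring

/-- Z-EMS -/
theorem emsz : Pool.Agent.TH563.Z.S_EMSZ := by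
  intro y₀ hy1 hy2
  obtain ⟨b, hb⟩ := main_posZ
  refine ⟨1 / 16, by norm_num, le_rfl, vv b, ?_, ?_, ?_⟩
  · intro k
    exact (diffOn_vv b k).mono (ball_subset_closedBall.trans (ball_subZ hy1 hy2))
  · exact fun k => bound_vvZ hy1 hy2 b k
  · intro K
    rcases Nat.eq_zero_or_pos K with hK | hK
    · subst hK
      obtain ⟨C, hC0, hC⟩ := hb 1 le_rfl
      obtain ⟨B, hB⟩ := bound_vvZ hy1 hy2 b 0
      refine ⟨B + C, ?_⟩
      filter_upwards [eventually_ge_atTop 64] with N hN d hd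
      have hd' := abs_lt.1 hd
      obtain ⟨e, he1, he2⟩ := hC N hN d (by linarith [hd'.1]) (by linarith [hd'.2])
      have hNp : (1 : ℝ) ≤ N := by
        have : 1 ≤ N := by omega
        exact_mod_cast this
      refine ⟨vv b 0 ((d : ℂ) / N) + e, ?_, ?_⟩
      · rw [pow_zero, div_one]
        refine (norm_add_le _ _).trans ?_
        have h1 : ‖vv b 0 ((d : ℂ) / N)‖ ≤ B := by
          apply hB
          rw [mem_ball, dist_eq_norm]
          have e1 : (d : ℂ) / N - (y₀ : ℂ) = (((d : ℝ) / N - y₀ : ℝ) : ℂ) := by push_cast; rfl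
          rw [e1, Complex.norm_real]
          exact hd
        have h2 : C / (N : ℝ) ^ 1 ≤ C := by
          rw [pow_one]
          exact div_le_self hC0 hNp
        linarith
      · rw [he2]
        congr 2
        rw [sum_range_one, sum_range_zero]
        simp only [pow_zero, div_one]
        ring
    · obtain ⟨C, hC0, hC⟩ := hb K hK
      refine ⟨C, ?_⟩
      filter_upwards [eventually_ge_atTop 64] with N hN d hd
      have hd' := abs_lt.1 hd
      exact hC N hN d (by linarith [hd'.1]) (by linarith [hd'.2])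

end Pool.Agent.TH931.Z764
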